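import Pool.Agent.Run7.h376.QL.Red

/-!
# Cones given by signs
-/

set_option autoImplicit false

open Filter Topology MeasureTheory

namespace Run7.h376.QL

universe u v

section

variable {S : Type u} [MeasurableSpace S] {E : Submodule ℝ (S → ℝ)} {N : (S → ℝ) → ℝ} {p : ℝ}
  {X : Type v} [AddCommGroup X] [Module ℝ X] [TopologicalSpace X] {q : X → ℝ}

/-- the elements of `X` which are represented by functions that are nonnegative on `A` -/
def cone (J : E →ₗ[ℝ] X) (A : Set S) : Set X := {x | ∃ f : E, J f = x ∧ ∀ s ∈ A, 0 ≤ f.1 s}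

theorem cone_convex (J : E →ₗ[ℝ] X) (A : Set S) : Convex ℝ (cone J A) := by
  rintro x ⟨f, rfl, hf⟩ y ⟨g, rfl, hg⟩ a b ha hb _
  refine ⟨a • f + b • g, by rw [map_add, map_smul, map_smul], fun s hs => ?_⟩
  have h1 := hf s hs
  have h2 := hg s hs
  show 0 ≤ a * f.1 s + b * g.1 s
  positivity

theorem sp_nonneg {r t : ℝ} (h : 0 ≤ t) : 0 ≤ sp r t := by
  rw [sp_of_nonneg h]
  exact Real.rpow_nonneg h r

theorem mk_TT_TI (h : Lat E N p) (J : E →ₗ[ℝ] X) (hX : QuasiNormed X q)
    (hJ : Function.Surjective J) (hq : ∀ f : E, q (J f) = N f.1) (w : Conv h) :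
    SeparationQuotient.mk (TT h J hJ (TI h J w)) = SeparationQuotient.mk w := by
  refine SeparationQuotient.mk_eq_mk.2 (Metric.inseparable_iff.2 ?_)
  rw [dist_eq_norm]
  exact TT_TI h J hJ hX hq w

theorem homeo_cone (h : Lat E N p) (J : E →ₗ[ℝ] X) (hX : QuasiNormed X q)
    (hJ : Function.Surjective J) (hq : ∀ f : E, q (J f) = N f.1) :
    ∃ e : X ≃ₜ SeparationQuotient (Conv h), ∀ A : Set S, Convex ℝ (e '' cone J A) := by
  have hp := h.pos
  let e : X ≃ₜ SeparationQuotient (Conv h) :=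
    { toFun := fun x => SeparationQuotient.mk (TT h J hJ x)
      invFun := SeparationQuotient.lift (TI h J) fun x y hxy => by
        refine TI_congr h J hX hq x y ?_
        rw [← dist_eq_norm]
        exact Metric.inseparable_iff.1 hxy
      left_inv := fun x => by
        rw [SeparationQuotient.lift_mk]
        exact TI_TT h J hJ x
      right_inv := fun y => by
        obtain ⟨w, rfl⟩ := SeparationQuotient.surjective_mk y
        rw [SeparationQuotient.lift_mk]
        exact mk_TT_TI h J hX hJ hq w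
      continuous_toFun := SeparationQuotient.continuous_mk.comp (TT_cont h J hJ hX hq)
      continuous_invFun := SeparationQuotient.continuous_lift (TI_cont h J hX hq) }
  refine ⟨e, fun A => ?_⟩
  have himg : e '' cone J A = {y | ∃ w : Conv h, SeparationQuotient.mk w = y ∧
      ∀ s ∈ A, 0 ≤ (w : h.conc).1 s} := by
    ext y
    constructor
    · rintro ⟨x, ⟨f, hf, hfA⟩, rfl⟩
      refine ⟨(⟨fun s => sp p (f.1 s), h.sp_mem f.2⟩ : h.conc), ?_, fun s hs => ?_⟩
      · have h1 := mk_TT_TI h J hX hJ hq (⟨fun s => sp p (f.1 s), h.sp_mem f.2⟩ : h.conc)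
        have h2 : TI h J ((⟨fun s => sp p (f.1 s), h.sp_mem f.2⟩ : h.conc) : Conv h) = x := by
          rw [← hf]
          show J _ = J f
          congr 1
          apply Subtype.ext
          funext s
          exact sp_sp hp (one_div_mul_cancel hp.ne') _
        rw [h2] at h1
        exact h1.symm
      · exact sp_nonneg (hfA s hs)
    · rintro ⟨w, rfl, hw⟩
      refine ⟨TI h J w, ⟨_, rfl, fun s hs => sp_nonneg (hw s hs)⟩, ?_⟩
      exact mk_TT_TI h J hX hJ hq w
  rw [himg]
  rintro x ⟨w, rfl, hw⟩ y ⟨z, rfl, hz⟩ a b ha hb _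
  refine ⟨a • w + b • z, ?_, fun s hs => ?_⟩
  · rw [SeparationQuotient.mk_add, SeparationQuotient.mk_smul, SeparationQuotient.mk_smul]
  · have h1 := hw s hs
    have h2 := hz s hs
    show 0 ≤ a * (w : h.conc).1 s + b * (z : h.conc).1 s
    positivity

/-- **cones given by signs in `p`-convex lattices** -/
theorem cone_main (h : Lat E N p) (hp1 : p ≤ 1) (J : E →ₗ[ℝ] X) (hX : QuasiNormed X q)
    (hc : IsCompleteQN q) (hJ : Function.Surjective J) (a b : ℝ) (ha : 0 < a)
    (hlow : ∀ f : E, a * N f.1 ≤ q (J f)) (hup : ∀ f : E, q (J f) ≤ b * N f.1) :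
    ∃ (Y : Type u) (_ : NormedAddCommGroup Y) (_ : NormedSpace ℝ Y) (_ : CompleteSpace Y)
      (e : X ≃ₜ Y), ∀ A : Set S, Convex ℝ (cone J A) ∧ Convex ℝ (e '' cone J A) := by
  obtain ⟨q', hX', hq⟩ := reduce (N := N) h.nonneg h.smul (fun f g hfg => h.congr hp1 f g hfg) J
    hX hJ a b ha hlow hup
  have hc' : IsCompleteQN q' := by
    intro w hw
    obtain ⟨B, hB0, hBb⟩ : ∃ B : ℝ, 0 < B ∧ b ≤ B := ⟨max b 1, by positivity, le_max_left _ _⟩
    refine hc w fun ε hε => ?_
    obtain ⟨n0, hn0⟩ := hw (ε / B) (by positivity)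
    refine ⟨n0, fun m hm n hn => ?_⟩
    have h1 := hn0 m hm n hn
    rw [lt_div_iff₀ hB0] at h1
    obtain ⟨f, hf⟩ := hJ (w m - w n)
    have h2 := hup f
    rw [← hf] at h1 ⊢
    rw [hq] at h1
    have h3 := mul_le_mul_of_nonneg_right hBb (h.nonneg _ f.2)
    linarith
  have := complete h J hX' hc' hq hJ
  obtain ⟨e, he⟩ := homeo_cone h J hX' hJ hq
  exact ⟨SeparationQuotient (Conv h), inferInstance, inferInstance, inferInstance, e,
    fun A => ⟨cone_convex J A, he A⟩⟩

end

end Run7.h376.QL
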