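import Pool.Agent.Run7.h376.QL.Main

/-!
# Ideals of `L_r`: homeomorphisms to inner product spaces
-/

set_option autoImplicit false

open Filter Topology MeasureTheory

namespace Run7.h376.QL

universe u v

section

variable {S : Type u} [MeasurableSpace S] {E : Submodule ℝ (S → ℝ)} {N : (S → ℝ) → ℝ} {p : ℝ}
  {X : Type v} [AddCommGroup X] [Module ℝ X] [TopologicalSpace X] {q : X → ℝ}

theorem homeo (h : Lat E N p) (J : E →ₗ[ℝ] X) (hX : QuasiNormed X q) (hJ : Function.Surjective J)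
    (hq : ∀ f : E, q (J f) = N f.1) : Nonempty (X ≃ₜ SeparationQuotient (Conv h)) := by
  refine ⟨?_⟩
  exact
    { toFun := fun x => SeparationQuotient.mk (TT h J hJ x)
      invFun := SeparationQuotient.lift (TI h J) fun x y hxy => by
        refine TI_congr h J hX hq x y ?_
        rw [← dist_eq_norm]
        exact Metric.inseparable_iff.1 hxy
      left_inv := fun x => by
        rw [SeparationQuotient.lift_mk]
        exact TI_TT h J hJ x
      right_inv := fun y => by
        obtain ⟨w, rfl⟩ := SeparationQuotient.surjective_mk y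
        rw [SeparationQuotient.lift_mk]
        refine SeparationQuotient.mk_eq_mk.2 (Metric.inseparable_iff.2 ?_)
        rw [dist_eq_norm]
        exact TT_TI h J hJ hX hq w
      continuous_toFun := SeparationQuotient.continuous_mk.comp (TT_cont h J hJ hX hq)
      continuous_invFun := SeparationQuotient.continuous_lift (TI_cont h J hX hq) }

theorem mainIP (h : Lat E N p) (J : E →ₗ[ℝ] X) (hX : QuasiNormed X q)
    (hJ : Function.Surjective J) (hq : ∀ f : E, q (J f) = N f.1)
    (hpar : ∀ v ∈ h.conc, ∀ w ∈ h.conc, nm N p (v + w) * nm N p (v + w) +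
      nm N p (v - w) * nm N p (v - w) = 2 * (nm N p v * nm N p v + nm N p w * nm N p w)) :
    ∃ (Y : Type u) (_ : NormedAddCommGroup Y) (_ : InnerProductSpace ℝ Y), Nonempty (X ≃ₜ Y) := by
  obtain ⟨e⟩ := homeo h J hX hJ hq
  refine ⟨SeparationQuotient (Conv h), inferInstance, InnerProductSpace.ofNorm ℝ ?_, ⟨e⟩⟩
  intro x y
  obtain ⟨v, rfl⟩ := SeparationQuotient.surjective_mk x
  obtain ⟨w, rfl⟩ := SeparationQuotient.surjective_mk y
  rw [← SeparationQuotient.mk_add, ← SeparationQuotient.mk_sub, SeparationQuotient.norm_mk,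
    SeparationQuotient.norm_mk, SeparationQuotient.norm_mk, SeparationQuotient.norm_mk]
  exact hpar _ (v : h.conc).2 _ (w : h.conc).2

end

section

variable {S : Type u} [MeasurableSpace S] {μ : Measure S} {E : Submodule ℝ (S → ℝ)} {r : ℝ}

/-- `E` is an ideal of `L_r(μ)`, of measurable functions -/
structure Ideal (μ : Measure S) (E : Submodule ℝ (S → ℝ)) (r : ℝ) : Prop where
  meas : ∀ f ∈ E, Measurable f
  int : ∀ f ∈ E, Integrable (fun s => |f s| ^ r) μ
  solid : ∀ f ∈ E, ∀ g : S → ℝ, Measurable g → (∀ s, |g s| ≤ |f s|) → g ∈ E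

/-- the norm of `L_r` -/
noncomputable def LN (μ : Measure S) (r : ℝ) (f : S → ℝ) : ℝ := (∫ s, |f s| ^ r ∂μ) ^ (1 / r)

theorem int3 {A B C : S → ℝ} (a b : ℝ) (hA : Integrable A μ) (hB : Integrable B μ)
    (hC : Integrable C μ) : ∫ s, (a * A s + b * B s + C s) ∂μ =
      a * (∫ s, A s ∂μ) + b * (∫ s, B s ∂μ) + ∫ s, C s ∂μ := by
  have h1 : Integrable (fun s => a * A s + b * B s) μ := (hA.const_mul a).add (hB.const_mul b)
  rw [integral_add h1 hC, integral_add (hA.const_mul a) (hB.const_mul b), integral_const_mul,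
    integral_const_mul]

theorem mink {F G : S → ℝ} (hF0 : ∀ s, 0 ≤ F s) (hG0 : ∀ s, 0 ≤ G s) (hFm : Measurable F)
    (hGm : Measurable G) (hF : Integrable (fun s => F s ^ 2) μ)
    (hG : Integrable (fun s => G s ^ 2) μ) :
    Real.sqrt (∫ s, (F s + G s) ^ 2 ∂μ) ≤
      Real.sqrt (∫ s, F s ^ 2 ∂μ) + Real.sqrt (∫ s, G s ^ 2 ∂μ) := by
  have hFG : Integrable (fun s => F s * G s) μ := by
    refine Integrable.mono' (hF.add hG) (hFm.mul hGm).aestronglyMeasurable
      (Eventually.of_forall fun s => ?_)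
    rw [Real.norm_of_nonneg (mul_nonneg (hF0 s) (hG0 s))]
    simp only [Pi.add_apply]
    nlinarith [sq_nonneg (F s - G s), sq_nonneg (F s), sq_nonneg (G s)]
  have hcs : ∫ s, F s * G s ∂μ ≤ Real.sqrt (∫ s, F s ^ 2 ∂μ) * Real.sqrt (∫ s, G s ^ 2 ∂μ) := by
    have hA : 0 ≤ ∫ s, F s ^ 2 ∂μ := integral_nonneg fun s => sq_nonneg _
    have hB : 0 ≤ ∫ s, G s ^ 2 ∂μ := integral_nonneg fun s => sq_nonneg _
    have key : ∀ t : ℝ, 0 ≤ (∫ s, F s ^ 2 ∂μ) * (t * t) + (-2 * ∫ s, F s * G s ∂μ) * t +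
        ∫ s, G s ^ 2 ∂μ := by
      intro t
      have h1 : 0 ≤ ∫ s, (t * F s - G s) ^ 2 ∂μ := integral_nonneg fun s => sq_nonneg _
      have h2 : ∫ s, (t * F s - G s) ^ 2 ∂μ = (∫ s, F s ^ 2 ∂μ) * (t * t) +
          (-2 * ∫ s, F s * G s ∂μ) * t + ∫ s, G s ^ 2 ∂μ := by
        have e : (fun s => (t * F s - G s) ^ 2) =
            fun s => (t * t) * F s ^ 2 + (-2 * t) * (F s * G s) + G s ^ 2 := by
          funext s
          ring
        rw [e, int3 (t * t) (-2 * t) hF hFG hG]
        ring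
      linarith
    have hd := discrim_le_zero key
    unfold discrim at hd
    rw [← Real.sqrt_mul hA]
    refine Real.le_sqrt_of_sq_le ?_
    nlinarith
  have hA : 0 ≤ ∫ s, F s ^ 2 ∂μ := integral_nonneg fun s => sq_nonneg _
  have hB : 0 ≤ ∫ s, G s ^ 2 ∂μ := integral_nonneg fun s => sq_nonneg _
  rw [Real.sqrt_le_left (by positivity)]
  have e : ∫ s, (F s + G s) ^ 2 ∂μ =
      (∫ s, F s ^ 2 ∂μ) + 2 * (∫ s, F s * G s ∂μ) + ∫ s, G s ^ 2 ∂μ := by
    have e : (fun s => (F s + G s) ^ 2) = fun s => 1 * F s ^ 2 + 2 * (F s * G s) + G s ^ 2 := by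
      funext s
      ring
    rw [e, int3 1 2 hF hFG hG, one_mul]
  rw [e]
  have h1 := Real.sq_sqrt hA
  have h2 := Real.sq_sqrt hB
  nlinarith

theorem rpow_half (a : ℝ) : a ^ (1 / 2 : ℝ) = Real.sqrt a := (Real.sqrt_eq_rpow a).symm

theorem LN_pow {r : ℝ} (hr : 0 < r) (f : S → ℝ) :
    LN μ r f ^ (r / 2) = Real.sqrt (∫ s, |f s| ^ r ∂μ) := by
  unfold LN
  have h0 : 0 ≤ ∫ s, |f s| ^ r ∂μ := integral_nonneg fun s => by positivity
  rw [← Real.rpow_mul h0, ← rpow_half]
  congr 1
  field_simp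

theorem Ideal.lat (h : Ideal μ E r) (hr : 0 < r) : Lat E (LN μ r) (r / 2) where
  pos := by positivity
  meas := h.meas
  solid := by
    intro f hf g hg hfg
    have hgE := h.solid f hf g hg hfg
    refine ⟨hgE, ?_⟩
    unfold LN
    refine Real.rpow_le_rpow (integral_nonneg fun s => by positivity) ?_ (by positivity)
    exact integral_mono (h.int g hgE) (h.int f hf) fun s =>
      Real.rpow_le_rpow (abs_nonneg _) (hfg s) hr.le
  nonneg := fun f _ => Real.rpow_nonneg (integral_nonneg fun s => by positivity) _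
  smul := by
    intro f hf c
    unfold LN
    have e : ∀ s, |c * f s| ^ r = |c| ^ r * |f s| ^ r := fun s => by
      rw [abs_mul, Real.mul_rpow (abs_nonneg _) (abs_nonneg _)]
    simp_rw [e]
    rw [integral_const_mul, Real.mul_rpow (by positivity) (integral_nonneg fun s => by positivity),
      ← Real.rpow_mul (abs_nonneg _), mul_one_div_cancel hr.ne', Real.rpow_one]
  conv := by
    intro f hf g hg
    rw [LN_pow hr, LN_pow hr, LN_pow hr]
    have hfm := h.meas f hf
    have hgm := h.meas g hg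
    have e1 : ∀ x : ℝ, |x| ^ r = (|x| ^ (r / 2)) ^ 2 := fun x => by
      rw [← Real.rpow_natCast (|x| ^ (r / 2)) 2, ← Real.rpow_mul (abs_nonneg _)]
      congr 1
      push_cast
      ring
    have e2 : ∀ s, |(|f s| ^ (r / 2) + |g s| ^ (r / 2)) ^ (1 / (r / 2))| ^ r =
        (|f s| ^ (r / 2) + |g s| ^ (r / 2)) ^ 2 := fun s => by
      have h0 : 0 ≤ |f s| ^ (r / 2) + |g s| ^ (r / 2) := by positivity
      rw [abs_of_nonneg (Real.rpow_nonneg h0 _), ← Real.rpow_mul h0,
        ← Real.rpow_natCast (|f s| ^ (r / 2) + |g s| ^ (r / 2)) 2]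
      congr 1
      field_simp
      norm_num
    simp_rw [e2, e1]
    refine mink (fun s => by positivity) (fun s => by positivity) (by fun_prop) (by fun_prop)
      ?_ ?_
    · simpa only [← e1] using h.int f hf
    · simpa only [← e1] using h.int g hg

theorem nm_sq (h : Ideal μ E r) (hr : 0 < r) (v : S → ℝ) :
    nm (LN μ r) (r / 2) v * nm (LN μ r) (r / 2) v = ∫ s, v s ^ 2 ∂μ := by
  unfold nm
  rw [LN_pow hr, Real.mul_self_sqrt (integral_nonneg fun s => by positivity)]
  congr 1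
  funext s
  rw [abs_sp, ← Real.rpow_mul (abs_nonneg _), show 1 / (r / 2) * r = ((2 : ℕ) : ℝ) by
    field_simp; norm_num, Real.rpow_natCast, sq_abs]

theorem Ideal.int_sq (h : Ideal μ E r) (hr : 0 < r) {v : S → ℝ} (hv : v ∈ (h.lat hr).conc) :
    Integrable (fun s => v s ^ 2) μ := by
  have h1 := h.int _ ((h.lat hr).mem_conc.1 hv)
  refine h1.congr (Eventually.of_forall fun s => ?_)
  simp only
  rw [abs_sp, ← Real.rpow_mul (abs_nonneg _), show 1 / (r / 2) * r = ((2 : ℕ) : ℝ) by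
    field_simp; norm_num, Real.rpow_natCast, sq_abs]

/-- **ideals of `L_r` are homeomorphic to inner product spaces** -/
theorem ideal_main (h : Ideal μ E r) (hr : 0 < r) {X : Type v} [AddCommGroup X] [Module ℝ X]
    [TopologicalSpace X] {q : X → ℝ} (J : E →ₗ[ℝ] X) (hX : QuasiNormed X q)
    (hJ : Function.Surjective J) (hq : ∀ f : E, q (J f) = LN μ r f.1) :
    ∃ (Y : Type u) (_ : NormedAddCommGroup Y) (_ : InnerProductSpace ℝ Y), Nonempty (X ≃ₜ Y) := by
  refine mainIP (h.lat hr) J hX hJ hq fun v hv w hw => ?_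
  have hvw := (h.lat hr).conc.add_mem hv hw
  have hvw' := (h.lat hr).conc.sub_mem hv hw
  rw [nm_sq h hr, nm_sq h hr, nm_sq h hr, nm_sq h hr,
    ← integral_add (h.int_sq hr hvw) (h.int_sq hr hvw'),
    ← integral_add (h.int_sq hr hv) (h.int_sq hr hw), ← integral_const_mul]
  congr 1
  funext s
  simp only [Pi.add_apply, Pi.sub_apply]
  ring

end

end Run7.h376.QL
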