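import Pool.Agent.Run7.h376.QL.Pow

/-!
# Quasi-normed lattices of functions and their convexifications
-/

set_option autoImplicit false

open Filter Topology

namespace Run7.h376.QL

universe u

/-- `E` is a quasi-normed lattice of measurable real functions on `S`, with quasi-norm `N`, which is
`p`-convex -/
structure Lat {S : Type u} [MeasurableSpace S] (E : Submodule ℝ (S → ℝ)) (N : (S → ℝ) → ℝ)
    (p : ℝ) : Prop where
  pos : 0 < p
  meas : ∀ f ∈ E, Measurable f
  solid : ∀ f ∈ E, ∀ g : S → ℝ, Measurable g → (∀ s, |g s| ≤ |f s|) → g ∈ E ∧ N g ≤ N f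
  nonneg : ∀ f ∈ E, 0 ≤ N f
  smul : ∀ f ∈ E, ∀ c : ℝ, N (fun s => c * f s) = |c| * N f
  conv : ∀ f ∈ E, ∀ g ∈ E,
    N (fun s => (|f s| ^ p + |g s| ^ p) ^ (1 / p)) ^ p ≤ N f ^ p + N g ^ p

section

variable {S : Type u} [MeasurableSpace S] {E : Submodule ℝ (S → ℝ)} {N : (S → ℝ) → ℝ} {p : ℝ}

theorem Lat.abs_mem (h : Lat E N p) {f : S → ℝ} (hf : f ∈ E) : (fun s => |f s|) ∈ E :=
  (h.solid f hf _ (h.meas f hf).abs fun s => by rw [abs_abs]).1

/-- the `p`-sum -/
theorem Lat.psum_mem (h : Lat E N p) {f g : S → ℝ} (hf : f ∈ E) (hg : g ∈ E) :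
    (fun s => (|f s| ^ p + |g s| ^ p) ^ (1 / p)) ∈ E := by
  have hp := h.pos
  have hfm := h.meas f hf
  have hgm := h.meas g hg
  have h1 : ((2 : ℝ) ^ (1 / p)) • ((fun s => |f s|) + fun s => |g s|) ∈ E :=
    E.smul_mem _ (E.add_mem (h.abs_mem hf) (h.abs_mem hg))
  refine (h.solid _ h1 _ (by fun_prop) fun s => ?_).1
  simp only [Pi.smul_apply, Pi.add_apply, smul_eq_mul]
  have hf0 := abs_nonneg (f s)
  have hg0 := abs_nonneg (g s)
  have e1 : 0 ≤ (|f s| ^ p + |g s| ^ p) ^ (1 / p) := by positivity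
  have e2 : 0 ≤ (2 : ℝ) ^ (1 / p) * (|f s| + |g s|) := by positivity
  rw [abs_of_nonneg e1, abs_of_nonneg e2]
  have h2 : |f s| ^ p ≤ (|f s| + |g s|) ^ p := Real.rpow_le_rpow hf0 (by linarith) hp.le
  have h3 : |g s| ^ p ≤ (|f s| + |g s|) ^ p := Real.rpow_le_rpow hg0 (by linarith) hp.le
  calc (|f s| ^ p + |g s| ^ p) ^ (1 / p) ≤ (2 * (|f s| + |g s|) ^ p) ^ (1 / p) :=
        Real.rpow_le_rpow (by positivity) (by linarith) (by positivity)
    _ = 2 ^ (1 / p) * (|f s| + |g s|) := by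
        rw [Real.mul_rpow (by norm_num) (by positivity), ← Real.rpow_mul (by positivity),
          mul_one_div_cancel hp.ne', Real.rpow_one]

/-- the main estimate in the lattice: a function dominated by a `p`-sum -/
theorem Lat.dom (h : Lat E N p) {f g k : S → ℝ} (hf : f ∈ E) (hg : g ∈ E) (hk : Measurable k)
    (hd : ∀ s, |k s| ^ p ≤ |f s| ^ p + |g s| ^ p) : k ∈ E ∧ N k ^ p ≤ N f ^ p + N g ^ p := by
  have hp := h.pos
  have hd2 : ∀ s, |k s| ≤ |(|f s| ^ p + |g s| ^ p) ^ (1 / p)| := by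
    intro s
    have e1 : 0 ≤ (|f s| ^ p + |g s| ^ p) ^ (1 / p) := by positivity
    rw [abs_of_nonneg e1]
    calc |k s| = (|k s| ^ p) ^ (1 / p) := by
          rw [← Real.rpow_mul (abs_nonneg _), mul_one_div_cancel hp.ne', Real.rpow_one]
      _ ≤ _ := Real.rpow_le_rpow (by positivity) (hd s) (by positivity)
  obtain ⟨h1, h2⟩ := h.solid _ (h.psum_mem hf hg) k hk hd2
  exact ⟨h1, (Real.rpow_le_rpow (h.nonneg k h1) h2 hp.le).trans (h.conv f hf g hg)⟩

/-- the space of the functions whose signed power is in `E` -/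
def Lat.conc (h : Lat E N p) : Submodule ℝ (S → ℝ) where
  carrier := {v | (fun s => sp (1 / p) (v s)) ∈ E}
  zero_mem' := by
    have e : (fun s : S => sp (1 / p) ((0 : S → ℝ) s)) = 0 := by
      funext s
      have hp := h.pos
      simp only [Pi.zero_apply]
      exact sp_zero (by positivity)
    show (fun s : S => sp (1 / p) ((0 : S → ℝ) s)) ∈ E
    rw [e]
    exact E.zero_mem
  add_mem' := by
    intro v w hv hw
    have hp := h.pos
    have hv' : (fun s => sp (1 / p) (v s)) ∈ E := hv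
    have hw' : (fun s => sp (1 / p) (w s)) ∈ E := hw
    have hvm : Measurable v := by
      have h1 := (measurable_sp p).comp (h.meas _ hv')
      have e : sp p ∘ (fun s => sp (1 / p) (v s)) = v := by
        funext s
        exact sp_sp (by positivity) (mul_one_div_cancel hp.ne') (v s)
      rwa [e] at h1
    have hwm : Measurable w := by
      have h1 := (measurable_sp p).comp (h.meas _ hw')
      have e : sp p ∘ (fun s => sp (1 / p) (w s)) = w := by
        funext s
        exact sp_sp (by positivity) (mul_one_div_cancel hp.ne') (w s)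
      rwa [e] at h1
    refine (h.dom hv' hw' ((measurable_sp (1 / p)).comp (hvm.add hwm)) fun s => ?_).1
    simp only [Function.comp, Pi.add_apply]
    rw [abs_sp, abs_sp, abs_sp, ← Real.rpow_mul (abs_nonneg _), ← Real.rpow_mul (abs_nonneg _),
      ← Real.rpow_mul (abs_nonneg _), one_div_mul_cancel hp.ne', Real.rpow_one, Real.rpow_one,
      Real.rpow_one]
    exact abs_add_le _ _
  smul_mem' := by
    intro c v hv
    have hp := h.pos
    have hv' : (fun s => sp (1 / p) (v s)) ∈ E := hv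
    have e : (fun s => sp (1 / p) ((c • v) s)) = sp (1 / p) c • fun s => sp (1 / p) (v s) := by
      funext s
      simp only [Pi.smul_apply, smul_eq_mul]
      exact sp_mul (by positivity) _ _
    show (fun s => sp (1 / p) ((c • v) s)) ∈ E
    rw [e]
    exact E.smul_mem _ hv'

theorem Lat.mem_conc (h : Lat E N p) {v : S → ℝ} :
    v ∈ h.conc ↔ (fun s => sp (1 / p) (v s)) ∈ E := Iff.rfl

theorem Lat.meas_conc (h : Lat E N p) {v : S → ℝ} (hv : v ∈ h.conc) : Measurable v := by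
  have hp := h.pos
  have h1 := (measurable_sp p).comp (h.meas _ (h.mem_conc.1 hv))
  have e : sp p ∘ (fun s => sp (1 / p) (v s)) = v := by
    funext s
    exact sp_sp (by positivity) (mul_one_div_cancel hp.ne') (v s)
  rwa [e] at h1

/-- the norm of the convexification -/
noncomputable def nm (N : (S → ℝ) → ℝ) (p : ℝ) (v : S → ℝ) : ℝ :=
  N (fun s => sp (1 / p) (v s)) ^ p

theorem Lat.nm_nonneg (h : Lat E N p) {v : S → ℝ} (hv : v ∈ h.conc) : 0 ≤ nm N p v :=
  Real.rpow_nonneg (h.nonneg _ (h.mem_conc.1 hv)) _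

theorem Lat.nm_add (h : Lat E N p) {v w : S → ℝ} (hv : v ∈ h.conc) (hw : w ∈ h.conc) :
    nm N p (v + w) ≤ nm N p v + nm N p w := by
  have hp := h.pos
  refine (h.dom (h.mem_conc.1 hv) (h.mem_conc.1 hw)
    ((measurable_sp (1 / p)).comp ((h.meas_conc hv).add (h.meas_conc hw))) fun s => ?_).2
  simp only [Function.comp, Pi.add_apply]
  rw [abs_sp, abs_sp, abs_sp, ← Real.rpow_mul (abs_nonneg _), ← Real.rpow_mul (abs_nonneg _),
    ← Real.rpow_mul (abs_nonneg _), one_div_mul_cancel hp.ne', Real.rpow_one, Real.rpow_one,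
    Real.rpow_one]
  exact abs_add_le _ _

theorem Lat.nm_smul (h : Lat E N p) (c : ℝ) {v : S → ℝ} (hv : v ∈ h.conc) :
    nm N p (c • v) = |c| * nm N p v := by
  have hp := h.pos
  unfold nm
  have e : (fun s => sp (1 / p) ((c • v) s)) =
      fun s => sp (1 / p) c * (fun s => sp (1 / p) (v s)) s := by
    funext s
    simp only [Pi.smul_apply, smul_eq_mul]
    exact sp_mul (by positivity) _ _
  rw [e, h.smul _ (h.mem_conc.1 hv), Real.mul_rpow (abs_nonneg _) (h.nonneg _ (h.mem_conc.1 hv)),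
    abs_sp, ← Real.rpow_mul (abs_nonneg _), one_div_mul_cancel hp.ne', Real.rpow_one]

/-- the signed power maps `E` to the convexification -/
theorem Lat.sp_mem (h : Lat E N p) {f : S → ℝ} (hf : f ∈ E) : (fun s => sp p (f s)) ∈ h.conc := by
  have hp := h.pos
  rw [h.mem_conc]
  have e : (fun s => sp (1 / p) (sp p (f s))) = f := by
    funext s
    exact sp_sp hp (one_div_mul_cancel hp.ne') (f s)
  rwa [e]

/-- continuity of the signed power -/
theorem Lat.est1 (h : Lat E N p) {ε : ℝ} (hε : 0 < ε) : ∃ K : ℝ, 0 ≤ K ∧ ∀ f ∈ E, ∀ g ∈ E,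
    nm N p ((fun s => sp p (f s)) - fun s => sp p (g s)) ≤ ε * N f ^ p + K * N (f - g) ^ p := by
  have hp := h.pos
  obtain ⟨K, hK, hsub⟩ := sp_sub hp ε hε
  refine ⟨K, hK, fun f hf g hg => ?_⟩
  have h1 : (fun s => ε ^ (1 / p) * f s) ∈ E := E.smul_mem (ε ^ (1 / p)) hf
  have h2 : (fun s => K ^ (1 / p) * (f - g) s) ∈ E := E.smul_mem (K ^ (1 / p)) (E.sub_mem hf hg)
  have hm : (fun s => sp p (f s)) - (fun s => sp p (g s)) ∈ h.conc :=
    h.conc.sub_mem (h.sp_mem hf) (h.sp_mem hg)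
  have h3 := (h.dom h1 h2 (h.meas _ (h.mem_conc.1 hm)) fun s => ?_).2
  · unfold nm
    rw [h.smul f hf, h.smul (f - g) (E.sub_mem hf hg),
      Real.mul_rpow (abs_nonneg _) (h.nonneg f hf),
      Real.mul_rpow (abs_nonneg _) (h.nonneg _ (E.sub_mem hf hg)),
      abs_of_nonneg (by positivity), abs_of_nonneg (by positivity),
      ← Real.rpow_mul hε.le, ← Real.rpow_mul hK, one_div_mul_cancel hp.ne', Real.rpow_one,
      Real.rpow_one] at h3
    exact h3
  · simp only [Pi.sub_apply]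
    rw [abs_sp, ← Real.rpow_mul (abs_nonneg _), one_div_mul_cancel hp.ne', Real.rpow_one,
      abs_mul, abs_mul, Real.mul_rpow (abs_nonneg _) (abs_nonneg _),
      Real.mul_rpow (abs_nonneg _) (abs_nonneg _), abs_of_nonneg (show 0 ≤ ε ^ (1 / p) by positivity),
      abs_of_nonneg (show 0 ≤ K ^ (1 / p) by positivity), ← Real.rpow_mul hε.le,
      ← Real.rpow_mul hK, one_div_mul_cancel hp.ne', Real.rpow_one, Real.rpow_one]
    exact hsub (f s) (g s)

/-- continuity of the inverse -/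
theorem Lat.est2 (h : Lat E N p) {ε : ℝ} (hε : 0 < ε) : ∃ K : ℝ, 0 ≤ K ∧ ∀ v ∈ h.conc,
    ∀ w ∈ h.conc, N ((fun s => sp (1 / p) (v s)) - fun s => sp (1 / p) (w s)) ^ p ≤
      ε * nm N p v + K * nm N p (v - w) := by
  have hp := h.pos
  have hq : 0 < 1 / p := by positivity
  -- choose the constant with `(2 ^ p) * ε' ^ p = ε`
  obtain ⟨ε', hε', he⟩ : ∃ ε' : ℝ, 0 < ε' ∧ (2 * ε') ^ p = ε := by
    refine ⟨ε ^ (1 / p) / 2, by positivity, ?_⟩
    rw [show 2 * (ε ^ (1 / p) / 2) = ε ^ (1 / p) by ring, ← Real.rpow_mul hε.le,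
      one_div_mul_cancel hp.ne', Real.rpow_one]
  obtain ⟨K, hK, hsub⟩ := sp_sub hq ε' hε'
  refine ⟨(2 * K) ^ p, by positivity, fun v hv w hw => ?_⟩
  have hvE := h.mem_conc.1 hv
  have hwE := h.mem_conc.1 hw
  have hvw := h.mem_conc.1 (h.conc.sub_mem hv hw)
  have h1 : (fun s => (2 * ε') * sp (1 / p) (v s)) ∈ E := E.smul_mem (2 * ε') hvE
  have h2 : (fun s => (2 * K) * sp (1 / p) ((v - w) s)) ∈ E := E.smul_mem (2 * K) hvw
  have hm : (fun s => sp (1 / p) (v s)) - (fun s => sp (1 / p) (w s)) ∈ E := E.sub_mem hvE hwE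
  have h3 := (h.dom h1 h2 (h.meas _ hm) fun s => ?_).2
  · rw [h.smul _ hvE, h.smul _ hvw, Real.mul_rpow (abs_nonneg _) (h.nonneg _ hvE),
      Real.mul_rpow (abs_nonneg _) (h.nonneg _ hvw), abs_of_pos (show 0 < 2 * ε' by positivity),
      abs_of_nonneg (show 0 ≤ 2 * K by positivity), he] at h3
    exact h3
  · simp only [Pi.sub_apply]
    have h4 := hsub (v s) (w s)
    have a1 : |2 * ε' * sp (1 / p) (v s)| = 2 * (ε' * |v s| ^ (1 / p)) := by
      rw [abs_mul, abs_sp, abs_of_pos (show 0 < 2 * ε' by positivity)]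
      ring
    have a2 : |2 * K * sp (1 / p) (v s - w s)| = 2 * (K * |v s - w s| ^ (1 / p)) := by
      rw [abs_mul, abs_sp, abs_of_nonneg (show 0 ≤ 2 * K by positivity)]
      ring
    rw [a1, a2]
    set A := ε' * |v s| ^ (1 / p) with hA
    set B := K * |v s - w s| ^ (1 / p) with hB
    have hA0 : 0 ≤ A := by positivity
    have hB0 : 0 ≤ B := by positivity
    rcases le_total A B with hAB | hAB
    · have h5 : |sp (1 / p) (v s) - sp (1 / p) (w s)| ^ p ≤ (2 * B) ^ p :=
        Real.rpow_le_rpow (abs_nonneg _) (by linarith) hp.le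
      have h6 : 0 ≤ (2 * A) ^ p := by positivity
      linarith
    · have h5 : |sp (1 / p) (v s) - sp (1 / p) (w s)| ^ p ≤ (2 * A) ^ p :=
        Real.rpow_le_rpow (abs_nonneg _) (by linarith) hp.le
      have h6 : 0 ≤ (2 * B) ^ p := by positivity
      linarith

end

end Run7.h376.QL
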