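import Pool.Agent.Run7.h376.QL.Lat

/-!
# The homeomorphism of a quasi-Banach lattice with its convexification
-/

set_option autoImplicit false

open Filter Topology

namespace Run7.h376.QL

universe u v

/-- `q` is a quasi-norm on the real vector space `X` and generates its topology -/
structure QuasiNormed (X : Type v) [AddCommGroup X] [Module ℝ X] [TopologicalSpace X]
    (q : X → ℝ) : Prop where
  nonneg : ∀ x, 0 ≤ q x
  zero : ∀ x, q x = 0 → x = 0
  smul : ∀ (c : ℝ) (x : X), q (c • x) = |c| * q x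
  add : ∃ C : ℝ, 1 ≤ C ∧ ∀ x y, q (x + y) ≤ C * (q x + q y)
  basis : ∀ x, (𝓝 x).HasBasis (fun ε : ℝ => 0 < ε) fun ε => {y | q (y - x) < ε}

/-- the quasi-norm `q` is complete -/
def IsCompleteQN {X : Type v} [AddCommGroup X] [TopologicalSpace X] (q : X → ℝ) : Prop :=
  ∀ w : ℕ → X, (∀ ε : ℝ, 0 < ε → ∃ n₀ : ℕ, ∀ m ≥ n₀, ∀ n ≥ n₀, q (w m - w n) < ε) →
    ∃ x, Tendsto w atTop (𝓝 x)

section

variable {S : Type u} [MeasurableSpace S] {E : Submodule ℝ (S → ℝ)} {N : (S → ℝ) → ℝ} {p : ℝ}

/-- the convexification as a type -/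
def Conv (h : Lat E N p) : Type u := h.conc

instance (h : Lat E N p) : AddCommGroup (Conv h) := inferInstanceAs (AddCommGroup h.conc)

instance (h : Lat E N p) : Module ℝ (Conv h) := inferInstanceAs (Module ℝ h.conc)

/-- the seminorm -/
noncomputable def semi (h : Lat E N p) : Seminorm ℝ (Conv h) :=
  Seminorm.of (fun w : Conv h => nm N p (w : h.conc).1)
    (fun x y => h.nm_add (x : h.conc).2 (y : h.conc).2)
    (fun c x => h.nm_smul c (x : h.conc).2)

noncomputable instance instSN (h : Lat E N p) : SeminormedAddCommGroup (Conv h) :=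
  (semi h).toAddGroupSeminorm.toSeminormedAddCommGroup

noncomputable instance instNS (h : Lat E N p) : NormedSpace ℝ (Conv h) where
  norm_smul_le c x := (h.nm_smul c (x : h.conc).2).le

theorem norm_eq (h : Lat E N p) (w : Conv h) : ‖w‖ = nm N p (w : h.conc).1 := rfl

variable {X : Type v} [AddCommGroup X] [Module ℝ X] [TopologicalSpace X] {q : X → ℝ}

/-- the map to the convexification -/
noncomputable def TT (h : Lat E N p) (J : E →ₗ[ℝ] X) (hJ : Function.Surjective J) (x : X) :
    Conv h :=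
  (⟨fun s => sp p ((Function.surjInv hJ x).1 s), h.sp_mem (Function.surjInv hJ x).2⟩ : h.conc)

/-- the map back -/
noncomputable def TI (h : Lat E N p) (J : E →ₗ[ℝ] X) (w : Conv h) : X :=
  J ⟨fun s => sp (1 / p) ((w : h.conc).1 s), (w : h.conc).2⟩

variable (h : Lat E N p) (J : E →ₗ[ℝ] X) (hJ : Function.Surjective J)

theorem q_zero (hX : QuasiNormed X q) : q 0 = 0 := by
  have := hX.smul 0 (0 : X)
  simpa using this

theorem q_sub_comm (hX : QuasiNormed X q) (x y : X) : q (x - y) = q (y - x) := by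
  have := hX.smul (-1) (x - y)
  rw [neg_one_smul, neg_sub, abs_neg, abs_one, one_mul] at this
  exact this.symm

theorem TI_TT (x : X) : TI h J (TT h J hJ x) = x := by
  have hp := h.pos
  have e : (⟨fun s => sp (1 / p) (((TT h J hJ x : Conv h) : h.conc).1 s),
      ((TT h J hJ x : Conv h) : h.conc).2⟩ : E) = Function.surjInv hJ x := by
    apply Subtype.ext
    funext s
    exact sp_sp hp (one_div_mul_cancel hp.ne') _
  show J _ = x
  rw [e]
  exact Function.surjInv_eq hJ x

theorem E1 (hq : ∀ f : E, q (J f) = N f.1) {ε : ℝ} (hε : 0 < ε) :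
    ∃ K : ℝ, 0 ≤ K ∧ ∀ x y : X, ‖TT h J hJ x - TT h J hJ y‖ ≤ ε * q x ^ p + K * q (x - y) ^ p := by
  obtain ⟨K, hK, hk⟩ := h.est1 hε
  refine ⟨K, hK, fun x y => ?_⟩
  have h1 := hk _ (Function.surjInv hJ x).2 _ (Function.surjInv hJ y).2
  have e1 : N (Function.surjInv hJ x).1 = q x := by rw [← hq, Function.surjInv_eq hJ x]
  have e2 : N ((Function.surjInv hJ x).1 - (Function.surjInv hJ y).1) = q (x - y) := by
    have : ((Function.surjInv hJ x).1 - (Function.surjInv hJ y).1) =
      (Function.surjInv hJ x - Function.surjInv hJ y : E).1 := rfl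
    rw [this, ← hq, map_sub, Function.surjInv_eq hJ x, Function.surjInv_eq hJ y]
  rw [e1, e2] at h1
  exact h1

theorem E2 (hq : ∀ f : E, q (J f) = N f.1) {ε : ℝ} (hε : 0 < ε) :
    ∃ K : ℝ, 0 ≤ K ∧ ∀ x y : Conv h, q (TI h J x - TI h J y) ^ p ≤ ε * ‖x‖ + K * ‖x - y‖ := by
  obtain ⟨K, hK, hk⟩ := h.est2 hε
  refine ⟨K, hK, fun x y => ?_⟩
  have h1 := hk _ (x : h.conc).2 _ (y : h.conc).2
  have e : q (TI h J x - TI h J y) = N ((fun s => sp (1 / p) ((x : h.conc).1 s)) -
      fun s => sp (1 / p) ((y : h.conc).1 s)) := by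
    unfold TI
    rw [← map_sub, hq]
    rfl
  rw [e]
  exact h1

theorem le_zero_of {a b : ℝ} (hb : 0 ≤ b) (h : ∀ ε : ℝ, 0 < ε → a ≤ ε * b) : a ≤ 0 := by
  refine le_of_forall_pos_le_add fun δ hδ => ?_
  have h1 := h (δ / (b + 1)) (by positivity)
  have h2 : δ / (b + 1) * b ≤ δ := by
    rw [div_mul_eq_mul_div, div_le_iff₀ (by linarith)]
    nlinarith
  linarith

theorem TT_TI (hX : QuasiNormed X q) (hq : ∀ f : E, q (J f) = N f.1) (w : Conv h) :
    ‖TT h J hJ (TI h J w) - w‖ = 0 := by
  have hp := h.pos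
  set f := Function.surjInv hJ (TI h J w) with hf
  set g : E := ⟨fun s => sp (1 / p) ((w : h.conc).1 s), (w : h.conc).2⟩ with hg
  have hfg : N (f - g : E).1 = 0 := by
    rw [← hq, map_sub, hf, Function.surjInv_eq hJ, hg]
    unfold TI
    rw [sub_self]
    exact q_zero hX
  have hw : (w : h.conc).1 = fun s => sp p (g.1 s) := by
    funext s
    exact (sp_sp (by positivity) (mul_one_div_cancel hp.ne') _).symm
  have key : nm N p ((fun s => sp p (f.1 s)) - fun s => sp p (g.1 s)) ≤ 0 := by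
    refine le_zero_of (b := N f.1 ^ p) (Real.rpow_nonneg (h.nonneg _ f.2) _) fun ε hε => ?_
    obtain ⟨K, hK, hk⟩ := h.est1 hε
    have h1 := hk _ f.2 _ g.2
    have e : f.1 - g.1 = (f - g : E).1 := rfl
    rw [e, hfg, Real.zero_rpow hp.ne', mul_zero, add_zero] at h1
    exact h1
  refine le_antisymm ?_ (norm_nonneg _)
  have e : ‖TT h J hJ (TI h J w) - w‖ = nm N p ((fun s => sp p (f.1 s)) - fun s => sp p (g.1 s)) := by
    rw [← hw]
    rfl
  rw [e]
  exact key

theorem TI_congr (hX : QuasiNormed X q) (hq : ∀ f : E, q (J f) = N f.1) (x y : Conv h)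
    (hxy : ‖x - y‖ = 0) : TI h J x = TI h J y := by
  have hp := h.pos
  have h1 : q (TI h J x - TI h J y) ^ p ≤ 0 := by
    refine le_zero_of (b := ‖x‖) (norm_nonneg _) fun ε hε => ?_
    obtain ⟨K, hK, hk⟩ := E2 h J hq hε
    have h2 := hk x y
    rwa [hxy, mul_zero, add_zero] at h2
  have h2 : q (TI h J x - TI h J y) = 0 := by
    by_contra hne
    have h3 : 0 < q (TI h J x - TI h J y) := lt_of_le_of_ne (hX.nonneg _) (Ne.symm hne)
    exact absurd (Real.rpow_pos_of_pos h3 p) (not_lt.2 h1)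
  exact sub_eq_zero.1 (hX.zero _ h2)

theorem TT_cont (hX : QuasiNormed X q) (hq : ∀ f : E, q (J f) = N f.1) :
    Continuous (TT h J hJ) := by
  have hp := h.pos
  rw [continuous_iff_continuousAt]
  intro x
  rw [Metric.continuousAt_iff']
  intro η hη
  have hqx : 0 ≤ q x ^ p := Real.rpow_nonneg (hX.nonneg x) _
  obtain ⟨K, hK, hk⟩ := E1 h J hJ hq (ε := η / (2 * (q x ^ p + 1))) (by positivity)
  have hδ : 0 < (η / (2 * (K + 1))) ^ (1 / p) := by positivity
  filter_upwards [(hX.basis x).mem_of_mem hδ] with y hy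
  have hy' : q (y - x) < (η / (2 * (K + 1))) ^ (1 / p) := hy
  have h1 := hk x y
  rw [q_sub_comm hX x y] at h1
  have h2 : q (y - x) ^ p ≤ η / (2 * (K + 1)) := by
    calc q (y - x) ^ p ≤ ((η / (2 * (K + 1))) ^ (1 / p)) ^ p :=
          Real.rpow_le_rpow (hX.nonneg _) hy'.le hp.le
      _ = η / (2 * (K + 1)) := by
          rw [← Real.rpow_mul (by positivity), one_div_mul_cancel hp.ne', Real.rpow_one]
  have h3 : K * q (y - x) ^ p ≤ K * (η / (2 * (K + 1))) := mul_le_mul_of_nonneg_left h2 hK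
  have h4 : K * (η / (2 * (K + 1))) < η / 2 := by
    rw [mul_div_assoc', div_lt_div_iff₀ (by positivity) (by norm_num)]
    nlinarith
  have h5 : η / (2 * (q x ^ p + 1)) * q x ^ p ≤ η / 2 := by
    rw [div_mul_eq_mul_div, div_le_div_iff₀ (by positivity) (by norm_num)]
    nlinarith
  rw [dist_comm, dist_eq_norm]
  linarith

theorem TI_cont (hX : QuasiNormed X q) (hq : ∀ f : E, q (J f) = N f.1) :
    Continuous (TI h J) := by
  have hp := h.pos
  rw [continuous_iff_continuousAt]
  intro x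
  refine (hX.basis _).tendsto_right_iff.2 fun η hη => ?_
  have hηp : 0 < η ^ p := by positivity
  obtain ⟨K, hK, hk⟩ := E2 h J hq (ε := η ^ p / (2 * (‖x‖ + 1))) (by positivity)
  filter_upwards [Metric.ball_mem_nhds x (show 0 < η ^ p / (2 * (K + 1)) by positivity)] with y hy
  rw [mem_ball_iff_norm'] at hy
  have h1 := hk x y
  have h3 : K * ‖x - y‖ ≤ K * (η ^ p / (2 * (K + 1))) := mul_le_mul_of_nonneg_left hy.le hK
  have h4 : K * (η ^ p / (2 * (K + 1))) < η ^ p / 2 := by
    rw [mul_div_assoc', div_lt_div_iff₀ (by positivity) (by norm_num)]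
    nlinarith
  have h5 : η ^ p / (2 * (‖x‖ + 1)) * ‖x‖ ≤ η ^ p / 2 := by
    rw [div_mul_eq_mul_div, div_le_div_iff₀ (by positivity) (by norm_num)]
    nlinarith [norm_nonneg x]
  show q (TI h J y - TI h J x) < η
  rw [q_sub_comm hX]
  by_contra hcon
  push Not at hcon
  have h6 : η ^ p ≤ q (TI h J x - TI h J y) ^ p := Real.rpow_le_rpow hη.le hcon hp.le
  linarith

theorem complete (hX : QuasiNormed X q) (hc : IsCompleteQN q)
    (hq : ∀ f : E, q (J f) = N f.1) (hJ : Function.Surjective J) : CompleteSpace (Conv h) := by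
  have hp := h.pos
  refine Metric.complete_of_cauchySeq_tendsto fun w hw => ?_
  obtain ⟨R, hR⟩ := hw.norm_bddAbove
  have hR' : ∀ n, ‖w n‖ ≤ R := fun n => hR ⟨n, rfl⟩
  have hR0 : 0 ≤ R := (norm_nonneg _).trans (hR' 0)
  obtain ⟨x, hx⟩ := hc (fun n => TI h J (w n)) (by
    intro η hη
    have hηp : 0 < η ^ p := by positivity
    obtain ⟨K, hK, hk⟩ := E2 h J hq (ε := η ^ p / (2 * (R + 1))) (by positivity)
    obtain ⟨n0, hn0⟩ := Metric.cauchySeq_iff.1 hw (η ^ p / (2 * (K + 1))) (by positivity)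
    refine ⟨n0, fun m hm n hn => ?_⟩
    have h0 := hn0 m hm n hn
    rw [dist_eq_norm] at h0
    have h1 := hk (w m) (w n)
    have h3 : K * ‖w m - w n‖ ≤ K * (η ^ p / (2 * (K + 1))) := mul_le_mul_of_nonneg_left h0.le hK
    have h4 : K * (η ^ p / (2 * (K + 1))) < η ^ p / 2 := by
      rw [mul_div_assoc', div_lt_div_iff₀ (by positivity) (by norm_num)]
      nlinarith
    have h5 : η ^ p / (2 * (R + 1)) * ‖w m‖ ≤ η ^ p / 2 := by
      calc η ^ p / (2 * (R + 1)) * ‖w m‖ ≤ η ^ p / (2 * (R + 1)) * R :=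
            mul_le_mul_of_nonneg_left (hR' m) (by positivity)
        _ ≤ η ^ p / 2 := by
            rw [div_mul_eq_mul_div, div_le_div_iff₀ (by positivity) (by norm_num)]
            nlinarith
    by_contra hcon
    push Not at hcon
    have h6 : η ^ p ≤ q (TI h J (w m) - TI h J (w n)) ^ p := Real.rpow_le_rpow hη.le hcon hp.le
    linarith)
  refine ⟨TT h J hJ x, ?_⟩
  have h1 := ((TT_cont h J hJ hX hq).tendsto x).comp hx
  rw [tendsto_iff_norm_sub_tendsto_zero] at h1 ⊢
  refine squeeze_zero (fun _ => norm_nonneg _) (fun n => ?_) h1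
  have h2 := TT_TI h J hJ hX hq (w n)
  have h3 := norm_sub_le_norm_sub_add_norm_sub (w n) (TT h J hJ (TI h J (w n))) (TT h J hJ x)
  have h4 : ‖w n - TT h J hJ (TI h J (w n))‖ = 0 := by rw [norm_sub_rev]; exact h2
  rw [h4, zero_add] at h3
  exact h3

/-- **main theorem** -/
theorem main (h : Lat E N p) (J : E →ₗ[ℝ] X) (hX : QuasiNormed X q) (hc : IsCompleteQN q) (hJ : Function.Surjective J)
    (hq : ∀ f : E, q (J f) = N f.1) :
    ∃ (Y : Type u) (_ : NormedAddCommGroup Y) (_ : NormedSpace ℝ Y), CompleteSpace Y ∧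
      Nonempty (X ≃ₜ Y) := by
  haveI := complete h J hX hc hq hJ
  refine ⟨SeparationQuotient (Conv h), inferInstance, inferInstance, inferInstance, ⟨?_⟩⟩
  exact
    { toFun := fun x => SeparationQuotient.mk (TT h J hJ x)
      invFun := SeparationQuotient.lift (TI h J) fun x y hxy => by
        refine TI_congr h J hX hq x y ?_
        rw [← dist_eq_norm]
        exact Metric.inseparable_iff.1 hxy
      left_inv := fun x => by
        rw [SeparationQuotient.lift_mk]
        exact TI_TT h J hJ x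
      right_inv := fun y => by
        obtain ⟨w, rfl⟩ := SeparationQuotient.surjective_mk y
        rw [SeparationQuotient.lift_mk]
        refine SeparationQuotient.mk_eq_mk.2 (Metric.inseparable_iff.2 ?_)
        rw [dist_eq_norm]
        exact TT_TI h J hJ hX hq w
      continuous_toFun := SeparationQuotient.continuous_mk.comp (TT_cont h J hJ hX hq)
      continuous_invFun := SeparationQuotient.continuous_lift (TI_cont h J hX hq) }

/-- functions which differ by a null function have the same quasi-norm -/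
theorem Lat.congr (h : Lat E N p) (hp1 : p ≤ 1) (f g : E) (hfg : N (f - g : E).1 = 0) :
    N f.1 ≤ N g.1 := by
  have hp := h.pos
  have h1 := (h.dom g.2 (f - g : E).2 (h.meas _ f.2) fun s => ?_).2
  · rw [hfg, Real.zero_rpow hp.ne', add_zero] at h1
    by_contra hcon
    push Not at hcon
    exact absurd h1 (not_le.2 (Real.rpow_lt_rpow (h.nonneg _ g.2) hcon hp))
  · have h2 : |f.1 s| ≤ |g.1 s| + |(f - g : E).1 s| := by
      have h3 : f.1 s = g.1 s + (f - g : E).1 s := by
        show f.1 s = g.1 s + (f.1 s - g.1 s)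
        ring
      calc |f.1 s| = |g.1 s + (f - g : E).1 s| := by rw [← h3]
        _ ≤ _ := abs_add_le _ _
    exact (Real.rpow_le_rpow (abs_nonneg _) h2 hp.le).trans
      (Real.rpow_add_le_add_rpow (abs_nonneg _) (abs_nonneg _) hp.le hp1)

/-- **main theorem**, for equivalent quasi-norms -/
theorem main2 (h : Lat E N p) (hp1 : p ≤ 1) (J : E →ₗ[ℝ] X) (hX : QuasiNormed X q)
    (hc : IsCompleteQN q) (hJ : Function.Surjective J) (a b : ℝ) (ha : 0 < a)
    (hlow : ∀ f : E, a * N f.1 ≤ q (J f)) (hup : ∀ f : E, q (J f) ≤ b * N f.1) :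
    ∃ (Y : Type u) (_ : NormedAddCommGroup Y) (_ : NormedSpace ℝ Y), CompleteSpace Y ∧
      Nonempty (X ≃ₜ Y) := by
  set q' : X → ℝ := fun x => N (Function.surjInv hJ x).1 with hq'
  have hq : ∀ f : E, q' (J f) = N f.1 := by
    intro f
    set g := Function.surjInv hJ (J f) with hg
    have e : J g = J f := Function.surjInv_eq hJ (J f)
    have h1 : ∀ f g : E, J g = J f → N (f - g : E).1 = 0 := by
      intro f g e
      have h2 := hlow (f - g)
      rw [map_sub, e, sub_self, q_zero hX] at h2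
      have h3 := h.nonneg _ (f - g : E).2
      nlinarith
    exact le_antisymm (h.congr hp1 g f (h1 g f e.symm)) (h.congr hp1 f g (h1 f g e))
  have hle : ∀ x, a * q' x ≤ q x := fun x => by
    have h1 := hlow (Function.surjInv hJ x)
    rwa [Function.surjInv_eq hJ x] at h1
  have hge : ∀ x, q x ≤ b * q' x := fun x => by
    have h1 := hup (Function.surjInv hJ x)
    rwa [Function.surjInv_eq hJ x] at h1
  have hnn : ∀ x, 0 ≤ q' x := fun x => h.nonneg _ (Function.surjInv hJ x).2
  have hb : q' = q' := rfl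
  obtain ⟨B, hB0, hBb⟩ : ∃ B : ℝ, 0 < B ∧ b ≤ B := ⟨max b 1, by positivity, le_max_left _ _⟩
  have hge' : ∀ x, q x ≤ B * q' x := fun x =>
    (hge x).trans (mul_le_mul_of_nonneg_right hBb (hnn x))
  have hX' : QuasiNormed X q' := by
    refine ⟨hnn, fun x hx => ?_, fun c x => ?_, ?_, fun x => ?_⟩
    · have h1 := hge' x
      rw [hx, mul_zero] at h1
      exact hX.zero x (le_antisymm h1 (hX.nonneg x))
    · have h1 := hq (c • Function.surjInv hJ x)
      rw [map_smul, Function.surjInv_eq hJ x] at h1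
      rw [h1]
      exact h.smul _ (Function.surjInv hJ x).2 c
    · obtain ⟨C0, hC0, hadd⟩ := hX.add
      refine ⟨max 1 (C0 * B / a), le_max_left _ _, fun x y => ?_⟩
      have h1 := hle (x + y)
      have h2 := hadd x y
      have h3 : C0 * (q x + q y) ≤ C0 * (B * q' x + B * q' y) :=
        mul_le_mul_of_nonneg_left (add_le_add (hge' x) (hge' y)) (by linarith)
      have h4 : q' (x + y) ≤ C0 * B / a * (q' x + q' y) := by
        rw [div_mul_eq_mul_div, le_div_iff₀ ha]
        linarith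
      exact h4.trans (mul_le_mul_of_nonneg_right (le_max_right _ _) (add_nonneg (hnn x) (hnn y)))
    · refine (hX.basis x).to_hasBasis (fun ε hε => ⟨ε / B, by positivity, fun y hy => ?_⟩)
        fun ε hε => ⟨a * ε, by positivity, fun y hy => ?_⟩
      · have h1 : q' (y - x) < ε / B := hy
        rw [lt_div_iff₀ hB0] at h1
        have h2 := hge' (y - x)
        show q (y - x) < ε
        linarith
      · have h1 : q (y - x) < a * ε := hy
        have h2 := hle (y - x)
        show q' (y - x) < ε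
        exact lt_of_mul_lt_mul_left (h2.trans_lt h1) ha.le
  have hc' : IsCompleteQN q' := by
    intro w hw
    refine hc w fun ε hε => ?_
    obtain ⟨n0, hn0⟩ := hw (ε / B) (by positivity)
    refine ⟨n0, fun m hm n hn => ?_⟩
    have h1 := hn0 m hm n hn
    rw [lt_div_iff₀ hB0] at h1
    have h2 := hge' (w m - w n)
    linarith
  exact main h J hX' hc' hJ hq

end

end Run7.h376.QL
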