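import Mathlib

/-!
# Signed powers
-/

set_option autoImplicit false

open Filter Topology

namespace Run7.h376.QL

/-- the signed power `t ↦ sgn(t) |t|^r` -/
noncomputable def sp (r t : ℝ) : ℝ := if 0 ≤ t then |t| ^ r else -(|t| ^ r)

theorem measurable_sp (r : ℝ) : Measurable (sp r) := by
  unfold sp
  refine Measurable.ite measurableSet_Ici ?_ ?_
  · fun_prop
  · fun_prop

theorem sp_of_nonneg {r t : ℝ} (h : 0 ≤ t) : sp r t = t ^ r := by
  unfold sp
  rw [if_pos h, abs_of_nonneg h]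

theorem sp_of_neg {r t : ℝ} (h : t < 0) : sp r t = -((-t) ^ r) := by
  unfold sp
  rw [if_neg (not_le.2 h), abs_of_neg h]

theorem sp_pos {r t : ℝ} (h : 0 < t) : 0 < sp r t := by
  rw [sp_of_nonneg h.le]
  exact Real.rpow_pos_of_pos h r

theorem sp_neg_of_neg {r t : ℝ} (h : t < 0) : sp r t < 0 := by
  rw [sp_of_neg h]
  have := Real.rpow_pos_of_pos (neg_pos.2 h) r
  linarith

theorem sp_zero {r : ℝ} (hr : 0 < r) : sp r 0 = 0 := by
  rw [sp_of_nonneg le_rfl, Real.zero_rpow hr.ne']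

theorem abs_sp (r t : ℝ) : |sp r t| = |t| ^ r := by
  unfold sp
  have h := Real.rpow_nonneg (abs_nonneg t) r
  split_ifs
  · exact abs_of_nonneg h
  · rw [abs_neg, abs_of_nonneg h]

theorem sp_mul {r : ℝ} (hr : 0 < r) (c t : ℝ) : sp r (c * t) = sp r c * sp r t := by
  rcases lt_trichotomy c 0 with hc | hc | hc
  · rcases lt_trichotomy t 0 with ht | ht | ht
    · rw [sp_of_neg hc, sp_of_neg ht, sp_of_nonneg (mul_pos_of_neg_of_neg hc ht).le,
        show c * t = (-c) * (-t) by ring, Real.mul_rpow (by linarith) (by linarith)]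
      ring
    · rw [ht, mul_zero, sp_zero hr, mul_zero]
    · rw [sp_of_neg hc, sp_of_nonneg ht.le, sp_of_neg (mul_neg_of_neg_of_pos hc ht),
        show -(c * t) = (-c) * t by ring, Real.mul_rpow (by linarith) (by linarith)]
      ring
  · rw [hc, zero_mul, sp_zero hr, zero_mul]
  · rcases lt_trichotomy t 0 with ht | ht | ht
    · rw [sp_of_nonneg hc.le, sp_of_neg ht, sp_of_neg (mul_neg_of_pos_of_neg hc ht),
        show -(c * t) = c * (-t) by ring, Real.mul_rpow (by linarith) (by linarith)]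
      ring
    · rw [ht, mul_zero, sp_zero hr, mul_zero]
    · rw [sp_of_nonneg hc.le, sp_of_nonneg ht.le, sp_of_nonneg (mul_pos hc ht).le,
        Real.mul_rpow hc.le ht.le]

theorem sp_sp {a b : ℝ} (hb : 0 < b) (hab : a * b = 1) (t : ℝ) : sp a (sp b t) = t := by
  have ha : 0 < a := by
    by_contra h
    push Not at h
    nlinarith
  rcases lt_trichotomy t 0 with ht | ht | ht
  · have h := sp_neg_of_neg (r := b) ht
    rw [sp_of_neg h, sp_of_neg ht, neg_neg, ← Real.rpow_mul (by linarith), mul_comm, hab,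
      Real.rpow_one, neg_neg]
  · rw [ht, sp_zero hb, sp_zero ha]
  · have h := sp_pos (r := b) ht
    rw [sp_of_nonneg h.le, sp_of_nonneg ht.le, ← Real.rpow_mul ht.le, mul_comm, hab, Real.rpow_one]

/-- the basic inequality -/
theorem sp_sub {r : ℝ} (hr : 0 < r) (ε : ℝ) (hε : 0 < ε) : ∃ K : ℝ, 0 ≤ K ∧ ∀ u v : ℝ,
    |sp r u - sp r v| ≤ ε * |u| ^ r + K * |u - v| ^ r := by
  have hcont : ContinuousAt (fun t : ℝ => t ^ r) 1 :=
    Real.continuousAt_rpow_const 1 r (Or.inl one_ne_zero)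
  obtain ⟨δ0, hδ0, h0⟩ := Metric.continuousAt_iff.1 hcont ε hε
  obtain ⟨δ, hδ, hδ1, hδ2⟩ : ∃ δ : ℝ, 0 < δ ∧ δ ≤ 1 ∧ δ ≤ δ0 :=
    ⟨min 1 δ0, lt_min one_pos hδ0, min_le_left _ _, min_le_right _ _⟩
  refine ⟨(1 / δ) ^ r + (1 + 1 / δ) ^ r, by positivity, fun u v => ?_⟩
  by_cases hc : |u - v| < δ * |u|
  · have hu : u ≠ 0 := by
      rintro rfl
      simp at hc
      exact absurd hc (not_lt.2 (abs_nonneg _))
    have hupos : 0 < |u| := abs_pos.2 hu
    set t := v / u with ht
    have hv : v = t * u := by rw [ht]; field_simp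
    have htd : |t - 1| < δ := by
      have e : t - 1 = -(u - v) / u := by rw [ht]; field_simp; ring
      rw [e, abs_div, abs_neg, div_lt_iff₀ hupos]
      exact hc
    have htpos : 0 < t := by
      have := (abs_lt.1 htd).1
      linarith
    have h1 : |t ^ r - 1| < ε := by
      have := h0 (x := t) (by rw [Real.dist_eq]; linarith)
      rw [Real.dist_eq, Real.one_rpow] at this
      exact this
    have e : sp r u - sp r v = (1 - t ^ r) * sp r u := by
      rw [hv, sp_mul hr, sp_of_nonneg htpos.le]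
      ring
    rw [e, abs_mul, abs_sp, abs_sub_comm]
    have h2 : 0 ≤ |u| ^ r := by positivity
    have h3 : 0 ≤ ((1 / δ) ^ r + (1 + 1 / δ) ^ r) * |u - v| ^ r := by positivity
    have h4 : |t ^ r - 1| * |u| ^ r ≤ ε * |u| ^ r := mul_le_mul_of_nonneg_right h1.le h2
    linarith
  · push Not at hc
    have hu : |u| ≤ 1 / δ * |u - v| := by
      rw [div_mul_eq_mul_div, one_mul, le_div_iff₀ hδ]
      linarith
    have hv : |v| ≤ (1 + 1 / δ) * |u - v| := by
      have h1 : |v| ≤ |u| + |u - v| := by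
        have := abs_sub_abs_le_abs_sub v u
        rw [abs_sub_comm v u] at this
        linarith
      linarith
    have h1 : |u| ^ r ≤ (1 / δ) ^ r * |u - v| ^ r := by
      rw [← Real.mul_rpow (by positivity) (abs_nonneg _)]
      exact Real.rpow_le_rpow (abs_nonneg _) hu hr.le
    have h2 : |v| ^ r ≤ (1 + 1 / δ) ^ r * |u - v| ^ r := by
      rw [← Real.mul_rpow (by positivity) (abs_nonneg _)]
      exact Real.rpow_le_rpow (abs_nonneg _) hv hr.le
    have h3 : |sp r u - sp r v| ≤ |u| ^ r + |v| ^ r := by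
      rw [← abs_sp r u, ← abs_sp r v]
      exact abs_sub _ _
    have h4 : 0 ≤ ε * |u| ^ r := by positivity
    nlinarith

end Run7.h376.QL
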