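import Pool.Agent.Run7.h376.QL.Hilb

/-!
# Ideals of `L_r`, up to isomorphism
-/

set_option autoImplicit false

open Filter Topology MeasureTheory

namespace Run7.h376.QL

universe u v

section

variable {S : Type u} {E : Submodule ℝ (S → ℝ)} {N : (S → ℝ) → ℝ}
  {X : Type v} [AddCommGroup X] [Module ℝ X] [TopologicalSpace X] {q : X → ℝ}

/-- an equivalent quasi-norm on `X` which is equal to `N` on `E` -/
theorem reduce (hnn : ∀ f ∈ E, 0 ≤ N f) (hsm : ∀ f ∈ E, ∀ c : ℝ, N (fun s => c * f s) = |c| * N f)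
    (hcongr : ∀ f g : E, N (f - g : E).1 = 0 → N f.1 ≤ N g.1) (J : E →ₗ[ℝ] X)
    (hX : QuasiNormed X q) (hJ : Function.Surjective J) (a b : ℝ) (ha : 0 < a)
    (hlow : ∀ f : E, a * N f.1 ≤ q (J f)) (hup : ∀ f : E, q (J f) ≤ b * N f.1) :
    ∃ q' : X → ℝ, QuasiNormed X q' ∧ ∀ f : E, q' (J f) = N f.1 := by
  set q' : X → ℝ := fun x => N (Function.surjInv hJ x).1 with hq'
  have hq : ∀ f : E, q' (J f) = N f.1 := by
    intro f
    set g := Function.surjInv hJ (J f) with hg
    have e : J g = J f := Function.surjInv_eq hJ (J f)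
    have h1 : ∀ f g : E, J g = J f → N (f - g : E).1 = 0 := by
      intro f g e
      have h2 := hlow (f - g)
      rw [map_sub, e, sub_self, q_zero hX] at h2
      have h3 := hnn _ (f - g : E).2
      nlinarith
    exact le_antisymm (hcongr g f (h1 g f e.symm)) (hcongr f g (h1 f g e))
  have hle : ∀ x, a * q' x ≤ q x := fun x => by
    have h1 := hlow (Function.surjInv hJ x)
    rwa [Function.surjInv_eq hJ x] at h1
  have hge : ∀ x, q x ≤ b * q' x := fun x => by
    have h1 := hup (Function.surjInv hJ x)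
    rwa [Function.surjInv_eq hJ x] at h1
  have hnn' : ∀ x, 0 ≤ q' x := fun x => hnn _ (Function.surjInv hJ x).2
  obtain ⟨B, hB0, hBb⟩ : ∃ B : ℝ, 0 < B ∧ b ≤ B := ⟨max b 1, by positivity, le_max_left _ _⟩
  have hge' : ∀ x, q x ≤ B * q' x := fun x =>
    (hge x).trans (mul_le_mul_of_nonneg_right hBb (hnn' x))
  refine ⟨q', ⟨hnn', fun x hx => ?_, fun c x => ?_, ?_, fun x => ?_⟩, hq⟩
  · have h1 := hge' x
    rw [hx, mul_zero] at h1
    exact hX.zero x (le_antisymm h1 (hX.nonneg x))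
  · have h1 := hq (c • Function.surjInv hJ x)
    rw [map_smul, Function.surjInv_eq hJ x] at h1
    rw [h1]
    exact hsm _ (Function.surjInv hJ x).2 c
  · obtain ⟨C0, hC0, hadd⟩ := hX.add
    refine ⟨max 1 (C0 * B / a), le_max_left _ _, fun x y => ?_⟩
    have h1 := hle (x + y)
    have h2 := hadd x y
    have h3 : C0 * (q x + q y) ≤ C0 * (B * q' x + B * q' y) :=
      mul_le_mul_of_nonneg_left (add_le_add (hge' x) (hge' y)) (by linarith)
    have h4 : q' (x + y) ≤ C0 * B / a * (q' x + q' y) := by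
      rw [div_mul_eq_mul_div, le_div_iff₀ ha]
      linarith
    exact h4.trans (mul_le_mul_of_nonneg_right (le_max_right _ _) (add_nonneg (hnn' x) (hnn' y)))
  · refine (hX.basis x).to_hasBasis (fun ε hε => ⟨ε / B, by positivity, fun y hy => ?_⟩)
      fun ε hε => ⟨a * ε, by positivity, fun y hy => ?_⟩
    · have h1 : q' (y - x) < ε / B := hy
      rw [lt_div_iff₀ hB0] at h1
      have h2 := hge' (y - x)
      show q (y - x) < ε
      linarith
    · have h1 : q (y - x) < a * ε := hy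
      have h2 := hle (y - x)
      show q' (y - x) < ε
      exact lt_of_mul_lt_mul_left (h2.trans_lt h1) ha.le

end

/-- a normed space is quasi-normed -/
theorem quasi_of_norm (X : Type v) [NormedAddCommGroup X] [NormedSpace ℝ X] :
    QuasiNormed X (fun x : X => ‖x‖) where
  nonneg := fun x => norm_nonneg x
  zero := fun x hx => norm_eq_zero.1 hx
  smul := fun c x => by rw [norm_smul, Real.norm_eq_abs]
  add := ⟨1, le_rfl, fun x y => by rw [one_mul]; exact norm_add_le x y⟩
  basis := fun x => by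
    have h := Metric.nhds_basis_ball (x := x)
    have e : (fun ε : ℝ => Metric.ball x ε) = fun ε : ℝ => {y : X | ‖y - x‖ < ε} := by
      funext ε
      ext y
      exact mem_ball_iff_norm
    rwa [← e]

section

variable {S : Type u} [MeasurableSpace S] {μ : Measure S} {E : Submodule ℝ (S → ℝ)} {r : ℝ}

theorem LN_congr (h : Ideal μ E r) (hr : 0 < r) (f g : E) (hfg : LN μ r (f - g : E).1 = 0) :
    LN μ r f.1 ≤ LN μ r g.1 := by
  have h0 : 0 ≤ ∫ s, |(f - g : E).1 s| ^ r ∂μ := integral_nonneg fun s => by positivity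
  unfold LN at hfg
  rw [Real.rpow_eq_zero h0 (by positivity)] at hfg
  have h1 := (integral_eq_zero_iff_of_nonneg (μ := μ) (f := fun s => |(f - g : E).1 s| ^ r)
    (fun s => by positivity) (h.int _ (f - g : E).2)).1 hfg
  have h2 : ∀ᵐ s ∂μ, |f.1 s| ^ r = |g.1 s| ^ r := by
    filter_upwards [h1] with s hs
    have h3 : |(f - g : E).1 s| ^ r = 0 := hs
    rw [Real.rpow_eq_zero (abs_nonneg _) hr.ne', abs_eq_zero] at h3
    have h4 : f.1 s - g.1 s = 0 := h3
    rw [sub_eq_zero.1 h4]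
  unfold LN
  rw [integral_congr_ae h2]

/-- **normed spaces isomorphic to ideals of `L_r`** -/
theorem ideal_main2 (h : Ideal μ E r) (hr : 0 < r) {X : Type v} [NormedAddCommGroup X]
    [NormedSpace ℝ X] (J : E →ₗ[ℝ] X) (hJ : Function.Surjective J) (a b : ℝ) (ha : 0 < a)
    (hlow : ∀ f : E, a * (∫ s, |f.1 s| ^ r ∂μ) ^ (1 / r) ≤ ‖J f‖)
    (hup : ∀ f : E, ‖J f‖ ≤ b * (∫ s, |f.1 s| ^ r ∂μ) ^ (1 / r)) :
    ∃ (Y : Type u) (_ : NormedAddCommGroup Y) (_ : InnerProductSpace ℝ Y), Nonempty (X ≃ₜ Y) := by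
  obtain ⟨q', hq', hq⟩ := reduce (N := LN μ r) (h.lat hr).nonneg (h.lat hr).smul
    (LN_congr h hr) J (quasi_of_norm X) hJ a b ha hlow hup
  exact ideal_main h hr J hq' hJ hq

end

end Run7.h376.QL
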